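import Pool.Agent.H.MP_f6bc98_an.C

set_option autoImplicit false

open Filter Set Topology Equiv

namespace Pool.Agent.Results.MP_f6bc98_an.No

abbrev S : Type := AddCircle (1 : ℝ)

def PI (f : Perm S) : Prop :=
  ∃ F : Set S, F.Finite ∧ ∀ x ∉ F, ∃ c : S,
    (∀ᶠ y in 𝓝 x, f y = y + c) ∨ (∀ᶠ y in 𝓝 x, f y = -y + c)

abbrev FS : Subgroup (Perm S) := Subgroup.normalClosure {f | {x | f x ≠ x}.Finite}

def Realizable (Γ : Subgroup (Perm S ⧸ FS)) : Prop :=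
  ∃ s : Perm S ⧸ FS → Perm S, (∀ a ∈ Γ, ∀ b ∈ Γ, s (a * b) = s a * s b) ∧
    ∀ a ∈ Γ, QuotientGroup.mk (s a) = a

theorem result : ∃ T : Set (Perm S), T.Finite ∧ (∀ f ∈ T, PI f) ∧
    Group.IsSolvable (Subgroup.closure (QuotientGroup.mk '' T : Set (Perm S ⧸ FS))) ∧
    ¬ Realizable (Subgroup.closure (QuotientGroup.mk '' T : Set (Perm S ⧸ FS))) :=
  Pool.Agent.H.MP_f6bc98_an.main

end Pool.Agent.Results.MP_f6bc98_an.No
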